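import Pool.Agent.Lib.MP_b7a6eb_gt.Main

/-! Every weakly successively almost positive link is quasipositive. -/

namespace Pool.Agent.Results.MP_b7a6eb_gt.WsapQuasipositive

open Pool.Agent.Lib.MP_b7a6eb_gt

/-- Every planar diagram `D` which is weakly successively almost positive is isotopic to the closure
of a quasipositive braid: the closure of a braid word `∏ u σ_i u⁻¹` on `n + 1` strands. -/
theorem result (D : Diagram) (hD : D.Planar) (hW : WSAP D) :
    ∃ (n : ℕ) (c : List (Word n × Fin n)), Isotopic D (closure n (qpWord c)) :=
  main D hD hW

end Pool.Agent.Results.MP_b7a6eb_gt.WsapQuasipositive
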